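import Pool.Agent.H.MP_afcf11_co.A

namespace Pool.Agent.H.MP_afcf11_co.A

open Finset

theorem tb1 (b v : ℕ) : tb b 1 v = 1 ↔ b.testBit v = true := by
  change (b >>> (1 * v)) % 2 ^ 1 = 1 ↔ _
  rw [one_mul, pow_one, Nat.testBit_eq_decide_div_mod_eq, Nat.shiftRight_eq_div_pow,
    decide_eq_true_iff]

theorem tb3 (T v : ℕ) : tb T 3 v < 8 := Nat.mod_lt _ (by decide)

def V (a : ℕ → Bool) : List ℕ → List ℕ → ℤ
  | [], _ => 0
  | v :: r, pre => (if a v then (wt v : ℤ) + (pre.map fun u => if a u then cc u v else 0).sum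
      else 0) + V a r (v :: pre)

theorem sm_eq (a : ℕ → Bool) (v : ℕ) (pre : List ℕ) :
    (pre.map fun u => if a u then cc u v else 0).sum =
      (sm (ro v) (pre.filter a) : ℤ) - 700 * (pre.filter a).length := by
  induction pre with
  | nil => simp [sm]
  | cons u l ih =>
    rw [List.map_cons, List.sum_cons, ih, List.filter_cons]
    by_cases h : a u = true
    · simp only [h, if_true, List.length_cons]
      change _ = ((tb (ro v) 12 u + sm (ro v) (l.filter a) : ℕ) : ℤ) - _
      simp only [cc]
      push_cast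
      ring
    · simp [h]

theorem chk_cons (v : ℕ) (r ch : List ℕ) (k b p : ℕ) : chk (v :: r) ch k b p =
    (chk r ch k b p && (Nat.beq (tb b 1 v) 1 ||
      chk r (v :: ch) (k + 700) (b ||| am v) (p + wt v + sm (ro v) ch - k))) := by
  change (chk r ch k b p && (Nat.beq (tb b 1 v) 1 || frc (b ||| am v) fun b' => frc (ro v)
    fun row => frc (p + wt v + sm row ch - k) fun p' => frc (k + 700) fun k' =>
      chk r (v :: ch) k' b' p')) = _
  simp only [frc_eq]

theorem chk_sound (a : ℕ → Bool) (P : ℕ → Prop)
    (ha : ∀ u v, P u → P v → a u = true → (am u).testBit v = true → a v = false)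
    (r : List ℕ) : (∀ v ∈ r, P v) → ∀ pre b p,
      chk r (pre.filter a) (700 * (pre.filter a).length) b p = true →
      (∀ v, P v → b.testBit v = true → a v = false) → V a r pre + p ≤ 104990 := by
  induction r with
  | nil =>
    intro _ pre b p h _
    have : p ≤ 104990 := Nat.le_of_ble_eq_true h
    simp only [V]
    omega
  | cons v r ih =>
    intro hP pre b p h hb
    have ih := ih fun u hu => hP u (List.mem_cons_of_mem _ hu)
    have hPv := hP v List.mem_cons_self
    rw [chk_cons, Bool.and_eq_true, Bool.or_eq_true] at h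
    obtain ⟨h1, h2⟩ := h
    rw [V]
    by_cases hv : a v = true
    · rcases h2 with h2 | h2
      · rw [hb v hPv ((tb1 b v).mp (Nat.eq_of_beq_eq_true h2))] at hv
        exact absurd hv (by simp)
      have := ih (v :: pre) (b ||| am v) (p + wt v + sm (ro v) (pre.filter a) -
        700 * (pre.filter a).length) (by
          rw [List.filter_cons_of_pos hv, List.length_cons, mul_add]
          exact h2) (fun u hPu hu => by
          rw [Nat.testBit_or, Bool.or_eq_true] at hu
          exact hu.elim (hb u hPu) (ha v u hPv hPu hv))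
      rw [if_pos hv, sm_eq]
      omega
    · have := ih (v :: pre) b p (by rwa [List.filter_cons_of_neg hv]) hb
      rw [if_neg hv]
      omega

theorem V_le (a : ℕ → Bool) (ha : ∀ u v, a u = true → a v = true → ¬ Adj (px v - px u)) :
    V a L [] ≤ 4990 := by
  have := chk_sound a (· < 32) (fun u v hu hv h1 h2 => by
    by_contra h
    exact ha u v h1 (by simpa using h) (amL ⟨u, hu⟩ ⟨v, hv⟩ ((tb1 _ _).mpr h2))) L
    (by decide) [] 0 100000 chkL (by simp)
  omega

section
variable (I : Finset (ℤ × ℤ))

def N (e : ℕ) : ℤ :=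
  (I.filter fun x => x + ((((e + 8) / 16 : ℕ) : ℤ) - 8, (((e + 8) % 16 : ℕ) : ℤ) - 8) ∈ I).card

def ind (t : ℤ × ℤ) (v : ℕ) : Bool := decide (t + px v ∈ I)

variable {B : Finset (ℤ × ℤ)} (hB : ∀ v, ∀ x ∈ I, x - px v ∈ B)
include hB

theorem cnt (u v : ℕ) (c : ℤ) : ∑ t ∈ B, (if ind I t v then if ind I t u then c else 0 else 0) =
    c * (I.filter fun x => x + (px v - px u) ∈ I).card := by
  have : ∀ t, (if ind I t v then if ind I t u then c else 0 else 0) =
      if t + px v ∈ I ∧ t + px u ∈ I then c else 0 := by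
    intro t
    by_cases h1 : t + px v ∈ I <;> by_cases h2 : t + px u ∈ I <;> simp [ind, h1, h2]
  simp only [this]
  rw [← sum_filter, sum_const, nsmul_eq_mul, mul_comm]
  congr 2
  refine card_nbij' (fun t => t + px u) (fun x => x - px u) ?_ ?_ ?_ ?_
  · intro t ht
    simp only [coe_filter, Set.mem_ofPred_eq] at ht ⊢
    exact ⟨ht.2.2, by simpa using ht.2.1⟩
  · intro x hx
    simp only [coe_filter, Set.mem_ofPred_eq] at hx ⊢
    refine ⟨hB _ _ hx.1, ?_, by simpa using hx.1⟩
    have := hx.2
    rwa [← add_sub_assoc, add_sub_right_comm] at this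
  · intro t _
    simp
  · intro t _
    simp

theorem row (v : ℕ) (pre : List ℕ) :
    ∑ t ∈ B, (if ind I t v then (pre.map fun u => if ind I t u then cc u v else 0).sum else 0) =
      ∑ e ∈ range 256, ks e v pre * N I e := by
  induction pre with
  | nil => simp [ks]
  | cons u l ih =>
    have h1 := tb3 XT u
    have h2 := tb3 XT v
    have h3 := tb3 YT u
    have h4 := tb3 YT v
    have hk : ∀ e, ks e v (u :: l) * N I e =
        (if e = cd v + 128 - cd u then cc u v * N I e else 0) + ks e v l * N I e := by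
      intro e
      change cond (Nat.beq (cd v + 128) (cd u + e)) (cc u v + ks e v l) (ks e v l) * _ = _
      have hu : cd u = 16 * tb XT 3 u + tb YT 3 u := rfl
      by_cases h : e = cd v + 128 - cd u
      · rw [if_pos h, (by omega : cd u + e = cd v + 128), Nat.beq_refl]
        simp [add_mul]
      · rw [if_neg h, (Bool.eq_false_iff (b := Nat.beq (cd v + 128) (cd u + e))).mpr
          fun q => h (by have := Nat.eq_of_beq_eq_true q; omega)]
        simp
    have hu : cd u = 16 * tb XT 3 u + tb YT 3 u := rfl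
    have hv : cd v = 16 * tb XT 3 v + tb YT 3 v := rfl
    simp only [hk, sum_add_distrib, ← ih]
    rw [sum_ite_eq', if_pos (mem_range.mpr (by omega)), N]
    have : ((((cd v + 128 - cd u + 8) / 16 : ℕ) : ℤ) - 8, (((cd v + 128 - cd u + 8) % 16 : ℕ) : ℤ) - 8)
        = px v - px u := by
      simp only [px, Prod.mk_sub_mk, Prod.mk.injEq]
      omega
    rw [this, ← cnt I hB, ← sum_add_distrib]
    refine sum_congr rfl fun t _ => ?_
    split_ifs <;> simp [*]

theorem tot (r : List ℕ) : ∀ pre, ∑ t ∈ B, V (ind I t) r pre =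
    (r.map fun v => (wt v : ℤ)).sum * I.card + ∑ e ∈ range 256, Kf e r pre * N I e := by
  induction r with
  | nil => simp [V, Kf]
  | cons v r ih =>
    intro pre
    have hk : ∀ e, Kf e (v :: r) pre = ks e v pre + Kf e r (v :: pre) := fun _ => rfl
    have h1 := cnt I hB v v (wt v)
    simp only [sub_self, add_zero, filter_mem_eq_inter, inter_self] at h1
    simp only [V, hk, add_mul, sum_add_distrib, ih, List.map_cons, List.sum_cons, ← row I hB, ← h1]
    have : ∀ t, (if ind I t v then (wt v : ℤ) +
        (pre.map fun u => if ind I t u then cc u v else 0).sum else 0) =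
        (if ind I t v then if ind I t v then (wt v : ℤ) else 0 else 0) +
        (if ind I t v then (pre.map fun u => if ind I t u then cc u v else 0).sum else 0) := by
      intro t
      split_ifs <;> simp
    simp only [this, sum_add_distrib]
    ring

theorem dens (hI : ∀ x ∈ I, ∀ y ∈ I, ¬ Adj (y - x)) : 20002 * I.card ≤ 4990 * B.card := by
  have h1 := tot I hB L []
  rw [wL] at h1
  have h2 : 0 ≤ ∑ e ∈ range 256, Kf e L [] * N I e :=
    sum_nonneg fun e he => mul_nonneg (KfL ⟨e, mem_range.mp he⟩) (Nat.cast_nonneg _)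
  have h3 : ∑ t ∈ B, V (ind I t) L [] ≤ B.card • (4990 : ℤ) :=
    sum_le_card_nsmul _ _ _ fun t _ => V_le _ fun u v hu hv => by
      have := hI _ (of_decide_eq_true hu) _ (of_decide_eq_true hv)
      rwa [add_sub_add_left_eq_sub] at this
  rw [nsmul_eq_mul] at h3
  omega

end

end Pool.Agent.H.MP_afcf11_co.A
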